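import Pool.Agent.H9.Sn

set_option autoImplicit false

namespace Pool.Agent.Results.MP_e70d00_co.Counter

open Pool.Agent.H9.Sn

theorem result : ∀ C₀ : ℝ, ∃ (n : ℕ) (ε : ℝ) (A : Finset (Equiv.Perm (Fin n))), 2 ≤ n ∧ 0 < ε ∧
    E (fun σ => (ind A σ - (U n 2).starProjection (ind A) σ) ^ 2) ≤ ε * E (fun σ => ind A σ) ∧
    ∀ C : Finset (Equiv.Perm (Fin n)), IsCosetUnion 2 C →
      C₀ * (ε + 1 / n) * (A.card : ℝ) < ((symmDiff A C).card : ℝ) :=
  main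

end Pool.Agent.Results.MP_e70d00_co.Counter
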